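import Pool.Agent.Y843.AC.Stm
import Pool.Agent.Y843.HS.Win

/-!
# AC-WIN: counting the progressions in the windows
-/

set_option autoImplicit false

namespace Pool.Agent.Y872.AC

open Finset
open Pool.Agent.H602R3.DHJ (av)
open Pool.Agent.Y727.PSP
open Pool.Agent.Y79.PSP.MK (rp_mem rp_inj)
open Pool.Agent.Y843.AC

section

variable {N : ℕ} [NeZero N]

/-- a progression of residues in the first half is a progression of integers (from the proof of
`Pool.Agent.Y843.HS.ap_of_rp`) -/
theorem chain {k : ℕ} (hk : 2 ≤ k) {a d : ZMod N} (hd : d ≠ 0)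
    (h : ∀ j < k, 2 * rp (a + (j : ZMod N) * d) < N) :
    (∀ j < k, (rp (a + (j : ZMod N) * d) : ℤ) = rp a + j * ((rp (a + d) : ℤ) - rp a)) ∧
      (rp (a + d) : ℤ) - rp a ≠ 0 := by
  set c : ℕ → ℕ := fun j => rp (a + (j : ZMod N) * d) with hc
  have hc1 : ∀ j, 1 ≤ c j := fun j => (rp_mem _).1
  have hcast : ∀ j, ((c j : ℕ) : ZMod N) = a + (j : ZMod N) * d := fun j => Pool.Agent.Y843.HS.rp_cast _
  have hz0 : c 0 = rp a := by
    show rp (a + ((0 : ℕ) : ZMod N) * d) = rp a
    rw [Nat.cast_zero, zero_mul, add_zero]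
  have hz1 : c 1 = rp (a + d) := by
    show rp (a + ((1 : ℕ) : ZMod N) * d) = rp (a + d)
    rw [Nat.cast_one, one_mul]
  rw [← hz0, ← hz1]
  set D : ℤ := (c 1 : ℤ) - c 0 with hD
  have key : ∀ j, j < k → (c j : ℤ) = c 0 + j * D := by
    intro j
    induction j with
    | zero => intro _; simp
    | succ j ih =>
      intro hj
      rcases Nat.eq_zero_or_pos j with h0 | h0
      · subst h0
        rw [hD]; push_cast; ring
      · have ih' := ih (by omega)
        have e1 : ((((c (j + 1) : ℤ) + c 0) - (c j + c 1) : ℤ) : ZMod N) = 0 := by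
          push_cast
          rw [hcast, hcast, hcast, hcast]
          push_cast
          ring
        rw [ZMod.intCast_zmod_eq_zero_iff_dvd] at e1
        have b1 := h (j + 1) hj
        have b2 := h j (by omega)
        have b3 := h 0 (by omega)
        have b4 := h 1 (by omega)
        have b5 := hc1 (j + 1)
        have b6 := hc1 j
        have b7 := hc1 0
        have b8 := hc1 1
        change 2 * c (j + 1) < N at b1
        change 2 * c j < N at b2
        change 2 * c 0 < N at b3
        change 2 * c 1 < N at b4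
        have e2 : ((c (j + 1) : ℤ) + c 0) - (c j + c 1) = 0 := by
          apply Int.eq_zero_of_abs_lt_dvd e1
          rw [abs_lt]
          constructor <;> omega
        have e3 : (c (j + 1) : ℤ) = c j + D := by rw [hD]; linarith
        rw [e3, ih']
        push_cast
        ring
  refine ⟨fun j hj => key j hj, ?_⟩
  intro h0
  apply hd
  have e1 : ((c 1 : ℕ) : ZMod N) = ((c 0 : ℕ) : ZMod N) := by
    have : c 1 = c 0 := by omega
    rw [this]
  rw [hcast, hcast] at e1
  simpa using e1

/-- the difference -/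
def Dl (a d : ZMod N) : ℤ := (rp (a + d) : ℤ) - rp a

theorem Dl_lt (a d : ZMod N) : (Dl a d).natAbs < N := by
  unfold Dl
  have h1 := rp_mem (a + d)
  have h2 := rp_mem a
  omega

theorem dl_det {a d a' d' : ZMod N} (h : rp a = rp a') (hD : Dl a d = Dl a' d') :
    a = a' ∧ d = d' := by
  have ha : a = a' := rp_inj h
  refine ⟨ha, ?_⟩
  have h1 : rp (a + d) = rp (a' + d') := by
    unfold Dl at hD
    omega
  have h2 := rp_inj h1
  rw [ha] at h2
  exact add_left_cancel h2

/-- all the terms are in the window and in the first half -/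
def Good (k : ℕ) (T : Finset ℕ) (x : ℕ) (a d : ZMod N) : Prop :=
  ∀ j < k, x + rp (a + (j : ZMod N) * d) ∈ T ∧ 2 * rp (a + (j : ZMod N) * d) < N

/-- the map to progressions -/
def mp (k : ℕ) (q : ℕ × ZMod N × ZMod N) : (ℕ × ℕ) × (Bool × ℕ) :=
  if 0 < Dl q.2.1 q.2.2 then
    ((q.1 + rp q.2.1, (Dl q.2.1 q.2.2).natAbs), (true, rp q.2.1))
  else
    ((q.1 + rp (q.2.1 + ((k - 1 : ℕ) : ZMod N) * q.2.2), (Dl q.2.1 q.2.2).natAbs),
      (false, rp (q.2.1 + ((k - 1 : ℕ) : ZMod N) * q.2.2)))

theorem mp_mem {k : ℕ} (hk : 2 ≤ k) {T : Finset ℕ} {q : ℕ × ZMod N × ZMod N}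
    (hd : q.2.2 ≠ 0) (hg : Good k T q.1 q.2.1 q.2.2) :
    mp k q ∈ APs k N T ×ˢ ((univ : Finset Bool) ×ˢ Icc 1 N) := by
  classical
  obtain ⟨x, a, d⟩ := q
  simp only at hd hg
  obtain ⟨h1, h2⟩ := chain hk hd (fun j hj => (hg j hj).2)
  have h3 := Dl_lt a d
  change (∀ j < k, (rp (a + (j : ZMod N) * d) : ℤ) = rp a + j * Dl a d) at h1
  change Dl a d ≠ 0 at h2
  unfold mp
  simp only
  by_cases hp : 0 < Dl a d
  · rw [if_pos hp]
    rw [mem_product, mem_product]
    refine ⟨?_, mem_univ _, ?_⟩
    · unfold APs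
      rw [mem_filter, mem_product]
      have h0 := (hg 0 (by omega)).1
      rw [Nat.cast_zero, zero_mul, add_zero] at h0
      refine ⟨⟨h0, ?_⟩, ?_⟩
      · rw [mem_Icc]
        simp only
        omega
      · intro j hj
        have h4 := (hg j hj).1
        have h5 := h1 j hj
        have h6 : x + rp a + j * (Dl a d).natAbs = x + rp (a + (j : ZMod N) * d) := by
          have : ((x + rp a + j * (Dl a d).natAbs : ℕ) : ℤ) = x + rp (a + (j : ZMod N) * d) := by
            push_cast
            rw [h5, abs_of_pos hp]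
            ring
          exact_mod_cast this
        show x + rp a + j * (Dl a d).natAbs ∈ T
        rw [h6]
        exact h4
    · rw [mem_Icc]
      exact rp_mem a
  · rw [if_neg hp]
    have hn : Dl a d < 0 := lt_of_le_of_ne (not_lt.1 hp) h2
    rw [mem_product, mem_product]
    refine ⟨?_, mem_univ _, ?_⟩
    · unfold APs
      rw [mem_filter, mem_product]
      refine ⟨⟨(hg (k - 1) (by omega)).1, ?_⟩, ?_⟩
      · rw [mem_Icc]
        simp only
        omega
      · intro j hj
        have h4 := (hg (k - 1 - j) (by omega)).1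
        have h5 := h1 (k - 1 - j) (by omega)
        have h7 := h1 (k - 1) (by omega)
        have h6 : x + rp (a + ((k - 1 : ℕ) : ZMod N) * d) + j * (Dl a d).natAbs =
            x + rp (a + ((k - 1 - j : ℕ) : ZMod N) * d) := by
          have : ((x + rp (a + ((k - 1 : ℕ) : ZMod N) * d) + j * (Dl a d).natAbs : ℕ) : ℤ) =
              x + rp (a + ((k - 1 - j : ℕ) : ZMod N) * d) := by
            push_cast
            rw [h5, h7, abs_of_neg hn, Nat.cast_sub (show j ≤ k - 1 by omega)]
            ring
          exact_mod_cast this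
        show x + rp (a + ((k - 1 : ℕ) : ZMod N) * d) + j * (Dl a d).natAbs ∈ T
        rw [h6]
        exact h4
    · rw [mem_Icc]
      exact rp_mem _

theorem mp_inj {k : ℕ} (hk : 2 ≤ k) {T : Finset ℕ} {q q' : ℕ × ZMod N × ZMod N}
    (hd : q.2.2 ≠ 0) (hg : Good k T q.1 q.2.1 q.2.2)
    (hd' : q'.2.2 ≠ 0) (hg' : Good k T q'.1 q'.2.1 q'.2.2) (h : mp k q = mp k q') : q = q' := by
  obtain ⟨x, a, d⟩ := q
  obtain ⟨x', a', d'⟩ := q'
  simp only at hd hg hd' hg'
  obtain ⟨h1, h2⟩ := chain hk hd (fun j hj => (hg j hj).2)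
  obtain ⟨h1', h2'⟩ := chain hk hd' (fun j hj => (hg' j hj).2)
  change (∀ j < k, (rp (a + (j : ZMod N) * d) : ℤ) = rp a + j * Dl a d) at h1
  change Dl a d ≠ 0 at h2
  change (∀ j < k, (rp (a' + (j : ZMod N) * d') : ℤ) = rp a' + j * Dl a' d') at h1'
  change Dl a' d' ≠ 0 at h2'
  unfold mp at h
  simp only at h
  by_cases hp : 0 < Dl a d
  · by_cases hp' : 0 < Dl a' d'
    · rw [if_pos hp, if_pos hp'] at h
      simp only [Prod.mk.injEq, true_and] at h
      obtain ⟨⟨e1, e2⟩, e3⟩ := h
      have e4 : Dl a d = Dl a' d' := by omega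
      obtain ⟨e5, e6⟩ := dl_det e3 e4
      have e7 : x = x' := by omega
      rw [e5, e6, e7]
    · rw [if_pos hp, if_neg hp'] at h
      simp at h
  · by_cases hp' : 0 < Dl a' d'
    · rw [if_neg hp, if_pos hp'] at h
      simp at h
    · rw [if_neg hp, if_neg hp'] at h
      simp only [Prod.mk.injEq, true_and] at h
      obtain ⟨⟨e1, e2⟩, e3⟩ := h
      have e4 : Dl a d = Dl a' d' := by omega
      have g1 := h1 (k - 1) (by omega)
      have g1' := h1' (k - 1) (by omega)
      rw [e3, g1', e4] at g1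
      have e8 : rp a = rp a' := by
        have : (rp a' : ℤ) = rp a := by linarith
        exact_mod_cast this.symm
      obtain ⟨e5, e6⟩ := dl_det e8 e4
      have e7 : x = x' := by omega
      rw [e5, e6, e7]

end

/-- WIN -/
theorem win : S_WIN := by
  classical
  intro k N _ hk T w hw I
  have hN : (0 : ℝ) < N := by exact_mod_cast Nat.pos_of_ne_zero (NeZero.ne N)
  have hwk : 0 ≤ w ^ k := pow_nonneg hw k
  -- the product
  have hprod : ∀ (x : ℕ) (p : ZMod N × ZMod N),
      ∏ j ∈ range k, fW T w N x (p.1 + (j : ZMod N) * p.2) =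
        if Good k T x p.1 p.2 then w ^ k else 0 := by
    intro x p
    by_cases hg : Good k T x p.1 p.2
    · rw [if_pos hg]
      have h1 : ∀ j ∈ range k, fW T w N x (p.1 + (j : ZMod N) * p.2) = w := by
        intro j hj
        unfold fW
        rw [if_pos (hg j (mem_range.1 hj))]
      rw [prod_congr rfl h1, prod_const, card_range]
    · rw [if_neg hg]
      unfold Good at hg
      push Not at hg
      obtain ⟨j, hj, hj2⟩ := hg
      refine prod_eq_zero (mem_range.2 hj) ?_
      unfold fW
      rw [if_neg]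
      intro hh
      exact absurd hh.2 (not_lt.2 (hj2 hh.1))
  set G : Finset (ℕ × ZMod N × ZMod N) :=
    (I ×ˢ (univ : Finset (ZMod N × ZMod N))).filter (fun q => Good k T q.1 q.2.1 q.2.2) with hG
  have hsum : ∑ x ∈ I, av (fun p : ZMod N × ZMod N =>
      ∏ j ∈ range k, fW T w N x (p.1 + (j : ZMod N) * p.2)) = w ^ k * G.card / (N : ℝ) ^ 2 := by
    unfold av
    rw [← sum_div]
    have h1 : ∑ x ∈ I, ∑ p : ZMod N × ZMod N,
        ∏ j ∈ range k, fW T w N x (p.1 + (j : ZMod N) * p.2) = w ^ k * G.card := by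
      rw [← sum_product (s := I) (t := (univ : Finset (ZMod N × ZMod N)))
        (f := fun q => ∏ j ∈ range k, fW T w N q.1 (q.2.1 + (j : ZMod N) * q.2.2))]
      rw [sum_congr rfl (fun q _ => hprod q.1 q.2)]
      rw [← sum_filter, sum_const, nsmul_eq_mul, mul_comm]
    rw [h1, Fintype.card_prod, ZMod.card]
    push_cast
    rw [sq]
  have hcard : G.card ≤ I.card * N + 2 * N * (APs k N T).card := by
    have h1 : G.card = (G.filter (fun q => q.2.2 = 0)).card +
        (G.filter (fun q => ¬ q.2.2 = 0)).card :=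
      (card_filter_add_card_filter_not (s := G) (fun q => q.2.2 = 0)).symm
    have h2 : (G.filter (fun q => q.2.2 = 0)).card ≤ I.card * N := by
      have h3 : (G.filter (fun q => q.2.2 = 0)).card ≤
          (I ×ˢ (univ : Finset (ZMod N))).card := by
        apply card_le_card_of_injOn (fun q => (q.1, q.2.1))
        · intro q hq
          rw [mem_coe, mem_filter, hG, mem_filter, mem_product] at hq
          rw [mem_coe, mem_product]
          exact ⟨hq.1.1.1, mem_univ _⟩
        · intro q hq q' hq' h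
          rw [mem_coe, mem_filter] at hq hq'
          obtain ⟨x, a, d⟩ := q
          obtain ⟨x', a', d'⟩ := q'
          simp only [Prod.mk.injEq] at h
          have e1 : d = 0 := hq.2
          have e2 : d' = 0 := hq'.2
          rw [h.1, h.2, e1, e2]
      rwa [card_product, card_univ, ZMod.card] at h3
    have h4 : (G.filter (fun q => ¬ q.2.2 = 0)).card ≤ 2 * N * (APs k N T).card := by
      have h5 : (G.filter (fun q => ¬ q.2.2 = 0)).card ≤
          (APs k N T ×ˢ ((univ : Finset Bool) ×ˢ Icc 1 N)).card := by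
        apply card_le_card_of_injOn (mp k)
        · intro q hq
          rw [mem_coe, mem_filter, hG, mem_filter] at hq
          exact mp_mem hk hq.2 hq.1.2
        · intro q hq q' hq' h
          rw [mem_coe, mem_filter, hG, mem_filter] at hq hq'
          exact mp_inj hk hq.2 hq.1.2 hq'.2 hq'.1.2 h
      rw [card_product, card_product, card_univ, Fintype.card_bool, Nat.card_Icc,
        Nat.add_sub_cancel] at h5
      linarith
    omega
  rw [hsum]
  have hcard' : (G.card : ℝ) ≤ I.card * N + 2 * N * (APs k N T).card := by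
    exact_mod_cast hcard
  calc w ^ k * G.card / (N : ℝ) ^ 2 ≤ w ^ k * (I.card * N + 2 * N * (APs k N T).card) / (N : ℝ) ^ 2 :=
        div_le_div_of_nonneg_right (mul_le_mul_of_nonneg_left hcard' hwk) (by positivity)
    _ = w ^ k * (2 * ((APs k N T).card : ℝ) / N + (I.card : ℝ) / N) := by
        field_simp
        ring

end Pool.Agent.Y872.AC
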